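import Pool.Agent.Y63.NV.Stm7
import Pool.Agent.Y63.KR.Basic

/-!
# Project NV, part 7, ALTZ: the alternating sum over the chains above a normal subgroup as a sum
over all chains (helper686, after `card_mul_alt` of helper171)
-/

set_option autoImplicit false

open scoped Classical

noncomputable section

namespace Pool.Agent.Y686.NV

open Pool.Agent.Y63.NV
open Pool.Agent.Y63.KR (IsPChain chainStabilizer alternatingSum conjSub chainSetoid conjSub_one
  conjSub_mul orbit_sum ncard_conj chainStabilizer_conj mem_chainStabilizer conjSub_le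
  conjSub_injective mem_conjSub)

/-- conjugation fixes normal subgroups -/
lemma conj_normal {G : Type} [Group G] {Z : Subgroup G} (hZ : Z.Normal) (g : G) :
    conjSub g Z = Z := by
  ext x
  rw [mem_conjSub]
  constructor
  · intro h
    have h1 := hZ.conj_mem _ h g
    have h2 : g * (g⁻¹ * x * g) * g⁻¹ = x := by group
    rwa [h2] at h1
  · intro h
    have h1 := hZ.conj_mem _ h g⁻¹
    rwa [inv_inv] at h1

/-- conjugation maps chains above `Z` to chains above `Z` -/
lemma conjZ {p : ℕ} {G : Type} [Group G] {Z : Subgroup G} (hZ : Z.Normal)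
    {σ : Set (Subgroup G)} (h : IsPChainZ p Z σ) (g : G) : IsPChainZ p Z (conjSub g '' σ) := by
  refine ⟨?_, ?_, ?_⟩
  · rintro _ ⟨P, hP, rfl⟩ _ ⟨Q, hQ, rfl⟩ _
    rcases h.chain.total hP hQ with h1 | h1
    · exact Or.inl (conjSub_le h1)
    · exact Or.inr (conjSub_le h1)
  · rintro _ ⟨P, hP, rfl⟩
    exact (h.isPGroup P hP).map _
  · rintro _ ⟨P, hP, rfl⟩
    have h1 : conjSub g Z ≤ conjSub g P := conjSub_le (h.lt P hP).le
    rw [conj_normal hZ g] at h1
    refine lt_of_le_of_ne h1 fun h2 => (h.lt P hP).ne ?_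
    apply conjSub_injective g
    rw [conj_normal hZ g, h2]

theorem altz : S_ALTZ := by
  intro p G _ _ Z f hZ hf
  have hfin : Finite {σ : Set (Subgroup G) // IsPChainZ p Z σ} := inferInstance
  have : Fintype {σ : Set (Subgroup G) // IsPChainZ p Z σ} := Fintype.ofFinite _
  letI : MulAction G {σ : Set (Subgroup G) // IsPChainZ p Z σ} :=
    { smul := fun g σ => ⟨conjSub g '' σ.1, conjZ hZ σ.2 g⟩
      one_smul := fun σ => by
        apply Subtype.ext
        change conjSub (1 : G) '' σ.1 = σ.1
        have : (conjSub (1 : G)) = id := funext conjSub_one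
        rw [this, Set.image_id]
      mul_smul := fun g h σ => by
        apply Subtype.ext
        change conjSub (g * h) '' σ.1 = conjSub g '' (conjSub h '' σ.1)
        rw [← Set.image_comp]
        congr 1
        exact funext fun P => conjSub_mul g h P }
  have hsm : ∀ (g : G) (σ : {σ : Set (Subgroup G) // IsPChainZ p Z σ}),
      (g • σ).1 = conjSub g '' σ.1 := fun _ _ => rfl
  have h := orbit_sum (G := G) (chainSetoidZ p Z) (by
    intro σ τ
    change (∃ g : G, τ.1 = conjSub g '' σ.1) ↔ _
    constructor
    · rintro ⟨g, hg⟩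
      exact ⟨g, Subtype.ext (by rw [hsm, hg])⟩
    · rintro ⟨g, hg⟩
      exact ⟨g, by rw [← hg, hsm]⟩)
    (fun σ => (-1) ^ σ.1.ncard * f (chainStabilizer σ.1)) (by
      rintro σ τ ⟨g, hg⟩
      change (-1) ^ σ.1.ncard * f (chainStabilizer σ.1) =
        (-1) ^ τ.1.ncard * f (chainStabilizer τ.1)
      rw [hg, ncard_conj, chainStabilizer_conj, hf])
  unfold alternatingSumZ
  rw [h, finsum_eq_sum_of_fintype]
  refine Finset.sum_congr rfl fun σ _ => ?_
  have hst : Nat.card (MulAction.stabilizer G σ) = Nat.card (chainStabilizer σ.1) := by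
    refine Nat.card_congr (Equiv.subtypeEquivRight fun g => ?_)
    rw [MulAction.mem_stabilizer_iff, Subtype.ext_iff, hsm, mem_chainStabilizer]
    constructor
    · intro h3 P hP
      have hgP : conjSub g P ∈ σ.1 := by
        rw [← h3]
        exact ⟨P, hP, rfl⟩
      have hcard : Nat.card (conjSub g P) = Nat.card P :=
        Nat.card_congr (Subgroup.equivMapOfInjective _ _ (MulAut.conj g).injective).toEquiv.symm
      rcases σ.2.chain.total hgP hP with h4 | h4
      · exact Subgroup.eq_of_le_of_card_ge h4 hcard.ge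
      · exact (Subgroup.eq_of_le_of_card_ge h4 hcard.le).symm
    · intro h3
      ext P
      constructor
      · rintro ⟨Q, hQ, rfl⟩
        rw [h3 Q hQ]
        exact hQ
      · intro hP
        exact ⟨P, hP, h3 P hP⟩
  rw [hst]
  ring

end Pool.Agent.Y686.NV
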